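import Pool.Agent.N869.GK.D.Stm

/-!
# GEN: representatives of the square classes
-/

set_option autoImplicit false

open scoped Classical


namespace Pool.Agent.N27.GK

open Finset
open Pool.Agent.N869.GK (Gr)
open Pool.Agent.N869.GK.D (Gen rep ecl)

theorem sq_cancel {t a : ℤ} (ha : a ≠ 0) (h : IsSquare (t * a ^ 2)) : IsSquare t := by
  obtain ⟨c, hc⟩ := h
  have h1 : a ^ 2 ∣ c ^ 2 := ⟨t, by rw [sq c, ← hc]; ring⟩
  obtain ⟨d, rfl⟩ := (Int.pow_dvd_pow_iff two_ne_zero).1 h1
  refine ⟨d, ?_⟩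
  have h2 : (t - d * d) * a ^ 2 = 0 := by linear_combination hc
  rcases mul_eq_zero.1 h2 with h3 | h3
  · linarith
  · exact absurd (pow_eq_zero_iff two_ne_zero |>.1 h3) ha

theorem zmod2 (a : ZMod 2) : a = 0 ∨ a = 1 := by
  fin_cases a
  · exact Or.inl rfl
  · exact Or.inr rfl

section

variable {b : Finset ℕ} {r : ℕ} {g : Fin r → ℤ}

theorem g_cases (h : Gen b g) (i : Fin r) : g i = -1 ∨ ∃ p : ℕ, p.Prime ∧ (p = 2 ∨ p ∈ b) ∧ g i = p := by
  rcases (h.im (g i)).1 ⟨i, rfl⟩ with h1 | h1 | ⟨l, hl, h1⟩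
  · exact Or.inl h1
  · exact Or.inr ⟨2, Nat.prime_two, Or.inl rfl, h1⟩
  · exact Or.inr ⟨l, (h.odd l hl).1, Or.inr hl, h1⟩

theorem sqf (h : Gen b g) (x : Gr r) : Squarefree (rep g x) := by
  unfold rep
  refine Finset.squarefree_prod_of_pairwise_isCoprime (fun i _ j _ hij => ?_) fun i _ => ?_
  · show IsRelPrime (if x i = 1 then g i else 1) (if x j = 1 then g j else 1)
    split_ifs with h1 h2
    · rcases g_cases h i with h3 | ⟨p, hp, -, h3⟩
      · rw [h3]
        exact (isUnit_one.neg).isRelPrime_left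
      · rcases g_cases h j with h4 | ⟨q, hq, -, h4⟩
        · rw [h4]
          exact (isUnit_one.neg).isRelPrime_right
        · have hpq : p ≠ q := by
            rintro rfl
            exact hij (h.inj (h3.trans h4.symm))
          rw [h3, h4]
          have h5 : IsCoprime (p : ℤ) (q : ℤ) :=
            Nat.isCoprime_iff_coprime.2 ((Nat.coprime_primes hp hq).2 hpq)
          exact h5.isRelPrime
    · exact isUnit_one.isRelPrime_right
    · exact isUnit_one.isRelPrime_left
    · exact isUnit_one.isRelPrime_left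
  · show Squarefree (if x i = 1 then g i else 1)
    split_ifs
    · rcases g_cases h i with h3 | ⟨p, hp, -, h3⟩
      · rw [h3]
        exact (isUnit_one.neg).squarefree
      · rw [h3]
        exact (Nat.prime_iff_prime_int.1 hp).squarefree
    · exact squarefree_one

theorem dvd_rep (h : Gen b g) (x : Gr r) (p : ℕ) (hp : p.Prime) (hd : (p : ℤ) ∣ rep g x) :
    p = 2 ∨ p ∈ b := by
  unfold rep at hd
  have hp' := Nat.prime_iff_prime_int.1 hp
  obtain ⟨i, -, hi⟩ := (Prime.dvd_finsetProd_iff hp' _).1 hd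
  split_ifs at hi
  · rcases g_cases h i with h3 | ⟨q, hq, hqb, h3⟩
    · rw [h3] at hi
      exact absurd (isUnit_of_dvd_unit hi isUnit_one.neg) hp'.not_isUnit
    · rw [h3, Int.natCast_dvd_natCast] at hi
      rwa [(Nat.prime_dvd_prime_iff_eq hp hq).1 hi]
  · exact absurd (isUnit_of_dvd_one hi) hp'.not_isUnit

theorem rep_add (x y : Gr r) : IsSquare (rep g x * rep g y * rep g (x + y)) := by
  unfold rep
  rw [← Finset.prod_mul_distrib, ← Finset.prod_mul_distrib]
  refine Finset.prod_induction _ IsSquare (fun a b ha hb => ha.mul hb) IsSquare.one fun i _ => ?_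
  have h11 : (1 : ZMod 2) + 1 = 0 := by decide
  have h01 : (0 : ZMod 2) ≠ 1 := by decide
  rw [Pi.add_apply]
  rcases zmod2 (x i) with hx | hx <;> rcases zmod2 (y i) with hy | hy <;> rw [hx, hy]
  · simp
  · rw [zero_add, if_neg h01, if_pos rfl, one_mul]
    exact ⟨g i, rfl⟩
  · rw [add_zero, if_neg h01, if_pos rfl, mul_one]
    exact ⟨g i, rfl⟩
  · rw [h11, if_neg h01, if_pos rfl, mul_one]
    exact ⟨g i, rfl⟩

theorem rep_ne (h : Gen b g) (x : Gr r) : rep g x ≠ 0 := (sqf h x).ne_zero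

theorem rep_zero : rep g (0 : Gr r) = 1 := by
  unfold rep
  refine Finset.prod_eq_one fun i _ => ?_
  rw [Pi.zero_apply, if_neg (by decide)]

theorem rep_single (i : Fin r) : rep g (Pi.single i 1 : Gr r) = g i := by
  unfold rep
  rw [Finset.prod_eq_single i]
  · rw [Pi.single_eq_same, if_pos rfl]
  · intro j _ hj
    rw [Pi.single_eq_of_ne hj, if_neg (by decide)]
  · intro hi
    exact absurd (Finset.mem_univ i) hi

theorem rep_inj (h : Gen b g) (x y : Gr r) (hs : IsSquare (rep g x * rep g y)) : x = y := by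
  obtain ⟨z, hz⟩ : ∃ z, z = x + y := ⟨_, rfl⟩
  have h1 : IsSquare (rep g z) := by
    have h2 := rep_add (g := g) x y
    rw [← hz] at h2
    obtain ⟨c, hc⟩ := hs
    have hc0 : c ≠ 0 := by
      rintro rfl
      rw [zero_mul] at hc
      exact mul_ne_zero (rep_ne h x) (rep_ne h y) hc
    refine sq_cancel hc0 ?_
    rw [hc] at h2
    have e : c * c * rep g z = rep g z * c ^ 2 := by ring
    rwa [e] at h2
  have h2 : rep g z = 1 := by
    obtain ⟨c, hc⟩ := h1
    have h3 : IsUnit c := sqf h z c ⟨1, by rw [hc, mul_one]⟩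
    rw [hc]
    rcases Int.isUnit_iff.1 h3 with h4 | h4 <;> rw [h4] <;> norm_num
  have h3 : ∀ i, z i = 1 → g i = -1 := by
    intro i hi
    rcases g_cases h i with h4 | ⟨p, hp, -, h4⟩
    · exact h4
    · exfalso
      have h5 : g i ∣ rep g z := by
        unfold rep
        have := Finset.dvd_prod_of_mem (fun i => if z i = 1 then g i else 1) (Finset.mem_univ i)
        rwa [if_pos hi] at this
      rw [h2, h4] at h5
      exact (Nat.prime_iff_prime_int.1 hp).not_isUnit (isUnit_of_dvd_one h5)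
  have h4 : z = 0 := by
    by_contra hne
    obtain ⟨i, hi⟩ := Function.ne_iff.1 hne
    have hi1 : z i = 1 := (zmod2 (z i)).resolve_left hi
    have h5 : z = Pi.single i 1 := by
      funext j
      by_cases hj : j = i
      · subst hj
        rw [Pi.single_eq_same, hi1]
      · rw [Pi.single_eq_of_ne hj]
        rcases zmod2 (z j) with h6 | h6
        · exact h6
        · exact absurd (h.inj ((h3 j h6).trans (h3 i hi1).symm)) hj
    rw [h5, rep_single, h3 i hi1] at h2
    norm_num at h2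
  rw [h4] at hz
  funext i
  have h5 : (0 : ZMod 2) = x i + y i := congrFun hz i
  rcases zmod2 (x i) with h6 | h6 <;> rcases zmod2 (y i) with h7 | h7 <;> rw [h6, h7] at h5 ⊢
  · rw [zero_add] at h5
    exact h5
  · rw [add_zero] at h5
    exact h5.symm

theorem ex_cls (h : Gen b g) : ∀ (m : ℕ) (n : ℤ), n.natAbs = m → n ≠ 0 →
    (∀ p : ℕ, p.Prime → (p : ℤ) ∣ n → p = 2 ∨ p ∈ b) → ∃ x : Gr r, IsSquare (n * rep g x) := by
  intro m
  induction m using Nat.strong_induction_on with
  | _ m ih =>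
    intro n hn hn0 hp
    by_cases h1 : n.natAbs = 1
    · rcases Int.natAbs_eq_iff.1 h1 with h2 | h2
      · refine ⟨0, ?_⟩
        rw [rep_zero, h2]
        exact ⟨1, by norm_num⟩
      · obtain ⟨i, hi⟩ := (h.im (-1)).2 (Or.inl rfl)
        refine ⟨Pi.single i 1, ?_⟩
        rw [rep_single, hi, h2]
        exact ⟨1, by norm_num⟩
    · obtain ⟨p, hpp, hpn⟩ := Nat.exists_prime_and_dvd h1
      have hpn' : (p : ℤ) ∣ n := Int.natCast_dvd.2 hpn
      obtain ⟨n', hn'⟩ := hpn'
      have hn'0 : n' ≠ 0 := by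
        rintro rfl
        rw [mul_zero] at hn'
        exact hn0 hn'
      have hlt : n'.natAbs < m := by
        rw [← hn, hn', Int.natAbs_mul, Int.natAbs_natCast]
        have h2 : 0 < n'.natAbs := Int.natAbs_pos.2 hn'0
        have h3 := hpp.two_le
        nlinarith
      obtain ⟨x', hx'⟩ := ih n'.natAbs hlt n' rfl hn'0 fun q hq hqn =>
        hp q hq (by rw [hn']; exact hqn.mul_left _)
      have hpb : p = 2 ∨ p ∈ b := hp p hpp (by rw [hn']; exact dvd_mul_right _ _)
      obtain ⟨i, hi⟩ : ∃ i, g i = (p : ℤ) := by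
        rw [h.im]
        rcases hpb with h2 | h2
        · exact Or.inr (Or.inl (by rw [h2]; norm_num))
        · exact Or.inr (Or.inr ⟨p, h2, rfl⟩)
      refine ⟨x' + Pi.single i 1, ?_⟩
      have h2 := rep_add (g := g) x' (Pi.single i 1)
      rw [rep_single, hi] at h2
      refine sq_cancel (rep_ne h x') ?_
      have e : n * rep g (x' + Pi.single i 1) * rep g x' ^ 2 =
          (n' * rep g x') * (rep g x' * (p : ℤ) * rep g (x' + Pi.single i 1)) := by
        rw [hn']
        ring
      rw [e]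
      exact hx'.mul h2

end

/-- **GEN.** -/
theorem t_GEN : Pool.Agent.N869.GK.D.S_GEN := by
  refine ⟨fun b hb => ?_, fun b r g h => ⟨sqf h, dvd_rep h, rep_add, rep_inj h, fun n hn hp => ?_⟩⟩
  · obtain ⟨s, hs⟩ : ∃ s : Finset ℤ, s = {-1, 2} ∪ Finset.image (Nat.cast : ℕ → ℤ) b := ⟨_, rfl⟩
    refine ⟨s.card, fun i => ((s.equivFin.symm i : s) : ℤ), hb,
      Subtype.val_injective.comp s.equivFin.symm.injective, fun z => ?_⟩
    have h1 : (∃ i, ((s.equivFin.symm i : s) : ℤ) = z) ↔ z ∈ s := by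
      constructor
      · rintro ⟨i, rfl⟩
        exact (s.equivFin.symm i).2
      · intro hz
        exact ⟨s.equivFin ⟨z, hz⟩, by rw [Equiv.symm_apply_apply]⟩
    rw [h1, hs]
    simp only [Finset.mem_union, Finset.mem_insert, Finset.mem_singleton, Finset.mem_image]
    constructor
    · rintro ((h2 | h2) | ⟨l, hl, h2⟩)
      · exact Or.inl h2
      · exact Or.inr (Or.inl h2)
      · exact Or.inr (Or.inr ⟨l, hl, h2.symm⟩)
    · rintro (h2 | h2 | ⟨l, hl, h2⟩)
      · exact Or.inl (Or.inl h2)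
      · exact Or.inl (Or.inr h2)
      · exact Or.inr ⟨l, hl, h2.symm⟩
  · have h1 := ex_cls h n.natAbs n rfl hn hp
    unfold ecl
    rw [dif_pos h1]
    exact h1.choose_spec

end Pool.Agent.N27.GK
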